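import Mathlib

/-! Strongly almost disjoint families: essential disjointness, gluing, counting. -/

open Cardinal Order Set

namespace Sad

variable {α : Type}

/-- GCH. -/
def GCH : Prop := ∀ c : Cardinal.{0}, ℵ₀ ≤ c → (2 : Cardinal.{0}) ^ c = Order.succ c

/-- pairwise finite intersections -/
def AD (𝒜 : Set (Set α)) : Prop := ∀ A ∈ 𝒜, ∀ B ∈ 𝒜, A ≠ B → (A ∩ B).Finite

/-- essentially disjoint: the members become pairwise disjoint after the removal of a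
countable set from each. -/
def ED (𝒜 : Set (Set α)) : Prop :=
  ∃ F : Set α → Set α, (∀ A ∈ 𝒜, (F A).Countable) ∧
    ∀ A ∈ 𝒜, ∀ B ∈ 𝒜, A ≠ B → Disjoint (A \ F A) (B \ F B)

theorem AD.mono {𝒜 ℬ : Set (Set α)} (h : AD 𝒜) (hs : ℬ ⊆ 𝒜) : AD ℬ :=
  fun A hA B hB => h A (hs hA) B (hs hB)

theorem ED.mono {𝒜 ℬ : Set (Set α)} (h : ED 𝒜) (hs : ℬ ⊆ 𝒜) : ED ℬ := by
  obtain ⟨F, h1, h2⟩ := h
  exact ⟨F, fun A hA => h1 A (hs hA), fun A hA B hB => h2 A (hs hA) B (hs hB)⟩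

/-- gluing along an increasing chain -/
theorem ED.glue {ι : Type} [LinearOrder ι] {𝒜 : Set (Set α)} (X : ι → Set α) (ρ : Set α → ι)
    (h1 : ∀ A ∈ 𝒜, A ⊆ X (ρ A)) (h2 : ∀ A ∈ 𝒜, (A ∩ ⋃ j ∈ Iio (ρ A), X j).Countable)
    (h3 : ∀ i, ED {A ∈ 𝒜 | ρ A = i}) : ED 𝒜 := by
  choose F hF1 hF2 using h3
  refine ⟨fun A => (A ∩ ⋃ j ∈ Iio (ρ A), X j) ∪ F (ρ A) A, fun A hA => ?_, ?_⟩
  · exact (h2 A hA).union (hF1 (ρ A) A ⟨hA, rfl⟩)
  · have key : ∀ A ∈ 𝒜, ∀ B ∈ 𝒜, ρ A < ρ B →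
        Disjoint (A \ ((A ∩ ⋃ j ∈ Iio (ρ A), X j) ∪ F (ρ A) A))
          (B \ ((B ∩ ⋃ j ∈ Iio (ρ B), X j) ∪ F (ρ B) B)) := by
      intro A hA B hB hlt
      rw [Set.disjoint_left]
      rintro x ⟨hxA, -⟩ ⟨hxB, hx⟩
      exact hx (Or.inl ⟨hxB, mem_biUnion (show ρ A ∈ Iio (ρ B) from hlt) (h1 A hA hxA)⟩)
    intro A hA B hB hne
    rcases lt_trichotomy (ρ A) (ρ B) with h | h | h
    · exact key A hA B hB h
    · have := hF2 (ρ A) A ⟨hA, rfl⟩ B ⟨hB, h.symm⟩ hne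
      refine Disjoint.mono ?_ ?_ this
      · exact sdiff_subset_sdiff_right subset_union_right
      · rw [h]; exact sdiff_subset_sdiff_right subset_union_right
    · exact (key B hB A hA h).symm

/-- families indexed by an order with countable initial segments -/
theorem ED.of_rank {ι : Type} [LinearOrder ι] (hι : ∀ i : ι, (Iio i).Countable)
    {𝒜 : Set (Set α)} (hAD : AD 𝒜) (g : Set α → ι) (hg : InjOn g 𝒜) : ED 𝒜 := by
  refine ⟨fun A => ⋃ B ∈ {B ∈ 𝒜 | g B < g A}, A ∩ B, fun A hA => ?_, ?_⟩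
  · have hc : {B ∈ 𝒜 | g B < g A}.Countable := by
      refine Set.MapsTo.countable_of_injOn (f := g) (t := Iio (g A)) ?_ ?_ (hι _)
      · intro B hB; exact hB.2
      · exact hg.mono (fun B hB => hB.1)
    refine hc.biUnion (fun B hB => ?_)
    exact (hAD A hA B hB.1 (by rintro rfl; exact lt_irrefl _ hB.2)).countable
  · have key : ∀ A ∈ 𝒜, ∀ B ∈ 𝒜, g A < g B →
        Disjoint (A \ ⋃ D ∈ {D ∈ 𝒜 | g D < g A}, A ∩ D)
          (B \ ⋃ D ∈ {D ∈ 𝒜 | g D < g B}, B ∩ D) := by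
      intro A hA B hB hlt
      rw [Set.disjoint_left]
      rintro x ⟨hxA, -⟩ ⟨hxB, hx⟩
      exact hx (mem_biUnion (show A ∈ {D ∈ 𝒜 | g D < g B} from ⟨hA, hlt⟩) ⟨hxB, hxA⟩)
    intro A hA B hB hne
    rcases lt_trichotomy (g A) (g B) with h | h | h
    · exact key A hA B hB h
    · exact absurd (hg hA hB h) hne
    · exact (key B hB A hA h).symm

/-- an injection into a type of at least the cardinality -/
theorem exists_injOn {β γ : Type} [Nonempty γ] {s : Set β} (h : #s ≤ #γ) :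
    ∃ g : β → γ, InjOn g s := by
  classical
  obtain ⟨f⟩ : Nonempty (s ↪ γ) := by rwa [Cardinal.le_def] at h
  refine ⟨fun x => if hx : x ∈ s then f ⟨x, hx⟩ else Classical.arbitrary γ, ?_⟩
  intro x hx y hy hxy
  simp only [hx, hy, dif_pos] at hxy
  simpa using f.injective hxy

theorem Iio_toType_le {c : Cardinal.{0}} {d : Cardinal.{0}} (h : c = succ d) (i : c.ord.ToType) :
    #(Iio i) ≤ d := by
  have h1 : #(Iio i) < #c.ord.ToType := mk_Iio_lt i (by simp)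
  rw [mk_ord_toType] at h1
  exact Order.lt_succ_iff.1 (h1.trans_eq h)

theorem ED.base {𝒜 : Set (Set α)} (hAD : AD 𝒜) (hc : #𝒜 ≤ ℵ_ 1) : ED 𝒜 := by
  have : Nonempty (ℵ_ 1).ord.ToType := by
    rw [← mk_ne_zero_iff, mk_ord_toType]; exact (aleph_pos 1).ne'
  obtain ⟨g, hg⟩ := exists_injOn (γ := (ℵ_ 1).ord.ToType) (s := 𝒜) (by rwa [mk_ord_toType])
  refine ED.of_rank (fun i => ?_) hAD g hg
  rw [← Cardinal.le_aleph0_iff_set_countable]
  refine Iio_toType_le ?_ i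
  rw [← aleph_zero, succ_aleph]; simp

/-- counting: members meeting `X` in an infinite set -/
theorem card_infinite_le {𝒜 : Set (Set α)} (hAD : AD 𝒜) (X : Set α) {ν : Cardinal.{0}}
    (hX : #X ≤ ν) (hν : ν ^ ℵ₀ ≤ ν) : #{A ∈ 𝒜 | (A ∩ X).Infinite} ≤ ν := by
  classical
  have key : #{A ∈ 𝒜 | (A ∩ X).Infinite} ≤ #(ℕ → X) := by
    choose f hf using fun A : {A ∈ 𝒜 | (A ∩ X).Infinite} =>
      (⟨Set.Infinite.natEmbedding _ A.property.2, trivial⟩ :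
        ∃ _ : ℕ ↪ ↥((A : Set α) ∩ X), True)
    refine Cardinal.mk_le_of_injective
      (f := fun A n => (⟨(f A n : α), (f A n).property.2⟩ : X)) ?_
    intro A B hAB
    by_contra hne
    have hne' : (A : Set α) ≠ B := fun h => hne (Subtype.ext h)
    have hfin := hAD A A.property.1 B B.property.1 hne'
    refine (Set.infinite_range_of_injective (f := fun n => ((f A n : α))) ?_) (hfin.subset ?_)
    · intro m n hmn
      exact (f A).injective (Subtype.ext hmn)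
    · rintro _ ⟨n, rfl⟩
      refine ⟨(f A n).property.1, ?_⟩
      have h1 : ((f A n : α)) = (f B n : α) := by
        have := congrFun hAB n
        simpa using congrArg Subtype.val this
      show (f A n : α) ∈ (B : Set α)
      rw [h1]; exact (f B n).property.1
  refine key.trans ?_
  rw [← Cardinal.power_def, Cardinal.mk_nat]
  exact (Cardinal.power_le_power_right hX).trans hν

theorem card_sUnion_le {𝒜 : Set (Set α)} {ν : Cardinal.{0}} (h0 : ℵ₀ ≤ ν) (h1 : #𝒜 ≤ ν)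
    (h2 : ∀ A ∈ 𝒜, #A ≤ ν) : #(⋃₀ 𝒜) ≤ ν := by
  refine (Cardinal.mk_sUnion_le 𝒜).trans ?_
  refine (mul_le_mul' h1 (ciSup_le' (fun A : 𝒜 => h2 A.1 A.2))).trans ?_
  exact (Cardinal.mul_eq_self h0).le

theorem GCH.pow_aleph_succ (gch : GCH) (o : Ordinal.{0}) : (ℵ_ (o + 1)) ^ ℵ₀ ≤ ℵ_ (o + 1) := by
  have h : ℵ_ (o + 1) = 2 ^ (ℵ_ o) := by
    rw [gch _ (aleph0_le_aleph o), succ_aleph]
  rw [h, ← Cardinal.power_mul, Cardinal.mul_aleph0_eq (aleph0_le_aleph o)]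

/-- the closure step -/
noncomputable def cl (𝒜 : Set (Set α)) (Y : Set α) : ℕ → Set α
  | 0 => Y
  | n + 1 => cl 𝒜 Y n ∪ ⋃₀ {A ∈ 𝒜 | (A ∩ cl 𝒜 Y n).Infinite}

/-- good sets -/
theorem exists_good (gch : GCH) {𝒜 : Set (Set α)} (hAD : AD 𝒜) (h1 : ∀ A ∈ 𝒜, #A = ℵ_ 1)
    (o : Ordinal.{0}) (Y : Set α) (hY : #Y ≤ ℵ_ (o + 1)) :
    ∃ X : Set α, Y ⊆ X ∧ #X ≤ ℵ_ (o + 1) ∧ ∀ A ∈ 𝒜, (A ∩ X).Countable ∨ A ⊆ X := by
  have hinf : ℵ₀ ≤ ℵ_ (o + 1) := aleph0_le_aleph _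
  have h11 : ℵ_ 1 ≤ ℵ_ (o + 1) := by
    rw [aleph_le_aleph]; simp
  have hcard : ∀ n, #(cl 𝒜 Y n) ≤ ℵ_ (o + 1) := by
    intro n
    induction n with
    | zero => exact hY
    | succ n ih =>
      refine (Cardinal.mk_union_le _ _).trans ?_
      refine (add_le_add ih (card_sUnion_le hinf (card_infinite_le hAD _ ih
        (gch.pow_aleph_succ o)) ?_)).trans (Cardinal.add_eq_self hinf).le
      intro A hA
      rw [h1 A hA.1]; exact h11
  refine ⟨⋃ n, cl 𝒜 Y n, subset_iUnion (cl 𝒜 Y) 0, ?_, fun A hA => ?_⟩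
  · refine (Cardinal.mk_iUnion_le _).trans ?_
    rw [Cardinal.mk_nat]
    refine (mul_le_mul' hinf (ciSup_le' hcard)).trans (Cardinal.mul_eq_self hinf).le
  · by_contra hcon
    push Not at hcon
    obtain ⟨hc, hs⟩ := hcon
    apply hc
    rw [inter_iUnion]
    refine countable_iUnion (fun n => ?_)
    by_contra hn
    apply hs
    have hm : A ∈ {A ∈ 𝒜 | (A ∩ cl 𝒜 Y n).Infinite} := ⟨hA, fun h => hn h.countable⟩
    exact (subset_sUnion_of_mem hm).trans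
      ((subset_union_right).trans (subset_iUnion (cl 𝒜 Y) (n + 1)))

end Sad
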