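import Pool.Agent.Lib_helper4.Sad.Basic

/-! Clubs of closure points; the gluing lemma on a regular uncountable order. -/

open Cardinal Order Set

set_option linter.unusedSectionVars false

namespace Sad

variable {α : Type} {κ : Type} [LinearOrder κ] [WellFoundedLT κ]

/-- small sets are bounded -/
theorem exists_bound [Nonempty κ] {s : Set κ} (h : #s < cof κ) : ∃ b, ∀ x ∈ s, x < b := by
  have : ¬ IsCofinal s := fun hs => (cof_le hs).not_gt h
  rw [not_isCofinal_iff] at this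
  obtain ⟨b, hb⟩ := this
  exact ⟨b, fun x hx => (hb x hx)⟩

/-- countable sets have suprema -/
theorem exists_isLUB {s : Set κ} (h : ∃ b, b ∈ upperBounds s) : ∃ b, IsLUB s b := by
  obtain ⟨b, hb⟩ := h
  let m := WellFounded.min (wellFounded_lt : WellFounded ((· < ·) : κ → κ → Prop)) (upperBounds s) ⟨b, hb⟩
  refine ⟨m, WellFounded.min_mem _ _ _, fun c hc => ?_⟩
  exact not_lt.1 (WellFounded.not_lt_min _ _ hc)

/-- the club of closure points of a relation with bounded values -/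
theorem isClub_closure [Nonempty κ] (hc : ℵ₀ < cof κ) (Q : κ → κ → Prop)
    (hQ : ∀ x, ∃ y, Q x y) (hmono : ∀ x x' y y', x' ≤ x → y ≤ y' → Q x y → Q x' y') :
    IsClub {γ | ∀ β < γ, Q β γ} := by
  refine ⟨?_, ?_⟩
  · intro d hd hne _ a ha β hβ
    obtain ⟨γ, hγ, hβγ, hγa⟩ := ha.exists_between hβ
    exact hmono _ _ _ _ le_rfl hγa (hd hγ β hβγ)
  · intro a
    have hnomax : ∀ x : κ, ∃ y, x < y := by
      intro x
      obtain ⟨b, hb⟩ := exists_bound (s := {x}) (by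
        rw [mk_singleton]; exact one_lt_aleph0.trans hc)
      exact ⟨b, hb x rfl⟩
    choose f hf using hQ
    choose g hg using hnomax
    let s : ℕ → κ := fun n => Nat.rec a (fun _ x => g (max x (f x))) n
    have hs1 : ∀ n, s n < s (n + 1) := fun n => (le_max_left _ _).trans_lt (hg _)
    have hs2 : ∀ n, f (s n) ≤ s (n + 1) := fun n => ((le_max_right _ _).trans_lt (hg _)).le
    have hb : ∃ b, b ∈ upperBounds (range s) := by
      obtain ⟨b, hb⟩ := exists_bound (s := range s)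
        ((Cardinal.le_aleph0_iff_set_countable.2 (countable_range s)).trans_lt hc)
      exact ⟨b, fun x hx => (hb x hx).le⟩
    obtain ⟨γ, hγ⟩ := exists_isLUB hb
    refine ⟨γ, ?_, hγ.1 ⟨0, rfl⟩⟩
    intro β hβ
    obtain ⟨_, ⟨n, rfl⟩, hβn, -⟩ := hγ.exists_between hβ
    exact hmono (s n) β (f (s n)) γ hβn.le ((hs2 n).trans (hγ.1 ⟨n + 1, rfl⟩)) (hf (s n))

/-- closure points of a function -/
theorem isClub_fun [Nonempty κ] (hc : ℵ₀ < cof κ) (hI : ∀ x : κ, #(Iio x) < cof κ) (b : κ → κ) :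
    IsClub {γ | ∀ β < γ, b β < γ} := by
  have hI' : ∀ x : κ, #(Iic x) < cof κ := by
    intro x
    have : Iic x = insert x (Iio x) := by
      ext y; simp [le_iff_eq_or_lt]
    rw [this]
    refine (mk_insert_le).trans_lt ?_
    exact add_lt_of_lt hc.le (hI x) (one_lt_aleph0.trans hc)
  have h := isClub_closure hc (fun x y => ∀ z ≤ x, b z < y) (fun x => by
    obtain ⟨y, hy⟩ := exists_bound (s := b '' Iic x) (mk_image_le.trans_lt (hI' x))
    exact ⟨y, fun z hz => hy _ ⟨z, hz, rfl⟩⟩)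
    (fun x x' y y' hx hy h z hz => (h z (hz.trans hx)).trans_le hy)
  convert h using 1
  ext γ
  constructor
  · intro h β hβ z hz
    exact h z (hz.trans_lt hβ)
  · intro h β hβ
    exact h β hβ β le_rfl

/-- the set of trapped points -/
def Trap (𝒜 : Set (Set α)) (r : α → κ) (big : Set α → Prop) : Set κ :=
  {γ | ∃ A ∈ 𝒜, (∀ β < γ, ¬ big (A ∩ r ⁻¹' Iio β)) ∧ ¬ (A ∩ r ⁻¹' Iio γ).Countable}

/-- **the gluing lemma** -/
theorem ED.of_trap [Nonempty κ] (hc : ℵ₀ < cof κ) {𝒜 : Set (Set α)} (r : α → κ)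
    (big : Set α → Prop) (hbig : ∀ s t : Set α, s ⊆ t → big s → big t)
    (h1 : ∀ β : κ, ∃ b : κ, ∀ A ∈ 𝒜, big (A ∩ r ⁻¹' Iio β) → A ⊆ r ⁻¹' Iio b)
    (h2 : ∀ A ∈ 𝒜, ∃ b : κ, A ⊆ r ⁻¹' Iio b)
    (h3 : ∀ γ : κ, ED {A ∈ 𝒜 | A ⊆ r ⁻¹' Iio γ})
    (h4 : ¬ IsStationary (Trap 𝒜 r big)) : ED 𝒜 := by
  classical
  obtain ⟨C', hC', hdis⟩ := not_isStationary_iff.1 h4
  set E : Set κ := {γ | ∀ β < γ, ∀ A ∈ 𝒜, big (A ∩ r ⁻¹' Iio β) → A ⊆ r ⁻¹' Iio γ} with hE
  have hEclub : IsClub E := by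
    refine isClub_closure hc (fun β γ => ∀ A ∈ 𝒜, big (A ∩ r ⁻¹' Iio β) → A ⊆ r ⁻¹' Iio γ)
      h1 ?_
    intro x x' y y' hx hy h A hA hb
    refine (h A hA (hbig _ _ ?_ hb)).trans (preimage_mono (Iio_subset_Iio hy))
    exact inter_subset_inter_right _ (preimage_mono (Iio_subset_Iio hx))
  set C := E ∩ C' with hCdef
  have hC : IsClub C := hEclub.inter hc.ne' hC'
  have wf : WellFounded ((· < ·) : κ → κ → Prop) := wellFounded_lt
  -- rank
  have hex : ∀ A ∈ 𝒜, ∃ c : C, A ⊆ r ⁻¹' Iio (c : κ) := by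
    intro A hA
    obtain ⟨b, hb⟩ := h2 A hA
    obtain ⟨c, hc, hbc⟩ := hC.isCofinal b
    exact ⟨⟨c, hc⟩, hb.trans (preimage_mono (Iio_subset_Iio hbc))⟩
  have hCne : Nonempty C := by
    obtain ⟨c, hc⟩ := hC.nonempty
    exact ⟨⟨c, hc⟩⟩
  have wfC : WellFounded ((· < ·) : C → C → Prop) := wellFounded_lt
  let ρ : Set α → C := fun A =>
    if h : ∃ c : C, A ⊆ r ⁻¹' Iio (c : κ) then wfC.min {c : C | A ⊆ r ⁻¹' Iio (c : κ)} h
    else Classical.arbitrary C
  have hρ1 : ∀ A ∈ 𝒜, A ⊆ r ⁻¹' Iio (ρ A : κ) := by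
    intro A hA
    have h := hex A hA
    simp only [ρ, dif_pos h]
    exact wfC.min_mem {c : C | A ⊆ r ⁻¹' Iio (c : κ)} h
  have hρ2 : ∀ A ∈ 𝒜, ∀ c : C, A ⊆ r ⁻¹' Iio (c : κ) → ρ A ≤ c := by
    intro A hA c hcA
    have h := hex A hA
    simp only [ρ, dif_pos h]
    exact not_lt.1 (wfC.not_lt_min {c : C | A ⊆ r ⁻¹' Iio (c : κ)} hcA)
  refine ED.glue (ι := C) (fun c => r ⁻¹' Iio (c : κ)) ρ hρ1 (fun A hA => ?_) (fun c => ?_)
  · set J : Set κ := {j | j ∈ C ∧ j < (ρ A : κ)} with hJ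
    by_cases hJe : J.Nonempty
    · obtain ⟨δ, hδ⟩ := exists_isLUB (s := J) ⟨(ρ A : κ), fun j hj => hj.2.le⟩
      have hδC : δ ∈ C := hC.isLUB_mem (fun j hj => hj.1) hJe hδ
      have hsub : (A ∩ ⋃ j ∈ Iio (ρ A), r ⁻¹' Iio (j : κ)) ⊆ A ∩ r ⁻¹' Iio δ := by
        rintro x ⟨hxA, hx⟩
        simp only [mem_iUnion] at hx
        obtain ⟨j, hj, hxj⟩ := hx
        refine ⟨hxA, ?_⟩
        have : (j : κ) ≤ δ := hδ.1 ⟨j.2, hj⟩
        exact lt_of_lt_of_le (show r x < (j : κ) from hxj) this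
      refine Countable.mono hsub ?_
      by_contra hnc
      have hδtrap : δ ∉ Trap 𝒜 r big := fun h => (Set.disjoint_left.1 hdis) h hδC.2
      have : ∃ β < δ, big (A ∩ r ⁻¹' Iio β) := by
        by_contra hcon
        push Not at hcon
        exact hδtrap ⟨A, hA, hcon, hnc⟩
      obtain ⟨β, hβ, hb⟩ := this
      obtain ⟨j, hjJ, hβj, -⟩ := hδ.exists_between hβ
      have hAj : A ⊆ r ⁻¹' Iio j := hjJ.1.1 β hβj A hA hb
      have := hρ2 A hA ⟨j, hjJ.1⟩ hAj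
      exact absurd hjJ.2 (not_lt.2 this)
    · have : (A ∩ ⋃ j ∈ Iio (ρ A), r ⁻¹' Iio (j : κ)) = ∅ := by
        rw [Set.eq_empty_iff_forall_notMem]
        rintro x ⟨-, hx⟩
        simp only [mem_iUnion] at hx
        obtain ⟨j, hj, -⟩ := hx
        exact hJe ⟨j, j.2, hj⟩
      rw [this]; exact countable_empty
  · refine (h3 (c : κ)).mono ?_
    rintro A ⟨hA, hAc⟩
    refine ⟨hA, ?_⟩
    rw [← hAc]; exact hρ1 A hA

/-- a set all of whose initial segments are finite is countable -/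
theorem countable_of_finite_segments {T : Set κ} (h : ∀ x ∈ T, (T ∩ Iio x).Finite) :
    T.Countable := by
  have : Function.Injective (fun x : T => (T ∩ Iio (x : κ)).ncard) := by
    have key : ∀ x ∈ T, ∀ y ∈ T, x < y → (T ∩ Iio x).ncard < (T ∩ Iio y).ncard := by
      intro x hx y hy hxy
      refine Set.ncard_lt_ncard ?_ (h y hy)
      refine ⟨inter_subset_inter_right _ (Iio_subset_Iio hxy.le), fun hsub => ?_⟩
      exact lt_irrefl x (hsub ⟨hx, hxy⟩).2
    intro x y hxy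
    rcases lt_trichotomy (x : κ) y with hlt | heq | hlt
    · exact absurd hxy (key x x.2 y y.2 hlt).ne
    · exact Subtype.ext heq
    · exact absurd hxy (key y y.2 x x.2 hlt).ne'
  exact (Set.countable_coe_iff).1 this.countable

end Sad
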