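import Pool.Agent.Lib_helper4.Sad.Ladder

/-! Shelah's diamond theorem at `ℵ_(ω+1)` (GCH), for stationary sets of points of
uncountable cofinality, in the form: functions `K ω → ℕ` are guessed. -/

open Cardinal Order Set Ordinal

namespace Sad

abbrev I : Type := (ℵ_ ω).ord.ToType

theorem mk_I : #I = ℵ_ ω := mk_ord_toType _

theorem gch_at (gch : GCH) :
    (ℵ₀ : Cardinal.{0}) ^ (ℵ_ (ω : Ordinal.{0})) = ℵ_ ((ω : Ordinal.{0}) + 1) := by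
  have h := gch (ℵ_ ω) (aleph0_le_aleph ω)
  rw [succ_aleph] at h
  rw [← h]
  exact Cardinal.power_eq_two_power (aleph0_le_aleph ω) (Cardinal.natCast_lt_aleph0 (n := 2)).le
    (aleph0_le_aleph ω)

/-- enumeration of bounded pieces -/
theorem exists_enum (gch : GCH) : ∃ e : K ω → ℕ → I → K ω → ℕ,
    ∀ (Z : ℕ → I → K ω → ℕ) (a : K ω), ∃ b, ∀ i ξ, ∀ x < a, e b i ξ x = Z i ξ x := by
  classical
  have hω : ℵ₀ ≤ ℵ_ ω := aleph0_le_aleph ω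
  have hT : #(Σ a : K ω, (ℕ × I × Iio a → ℕ)) ≤ #(K ω) := by
    rw [Cardinal.mk_sigma, mk_K]
    refine (Cardinal.sum_le_mk_mul_iSup _).trans ?_
    rw [mk_K]
    refine (mul_le_mul' le_rfl (ciSup_le' (fun a => ?_))).trans
      (Cardinal.mul_eq_self (aleph0_le_aleph _)).le
    rw [← Cardinal.power_def, Cardinal.mk_nat]
    have h1 : #(ℕ × I × Iio a) ≤ ℵ_ ω := by
      rw [Cardinal.mk_prod, Cardinal.mk_prod]
      simp only [Cardinal.lift_id, Cardinal.mk_nat, mk_I]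
      calc ℵ₀ * (ℵ_ ω * #(Iio a)) ≤ ℵ_ ω * (ℵ_ ω * ℵ_ ω) :=
            mul_le_mul' hω (mul_le_mul' le_rfl (Iio_K ω a))
        _ = ℵ_ ω := by rw [Cardinal.mul_eq_self hω, Cardinal.mul_eq_self hω]
    refine (Cardinal.power_le_power_left aleph0_ne_zero h1).trans ?_
    rw [gch_at gch]
  obtain ⟨g⟩ : Nonempty ((Σ a : K ω, (ℕ × I × Iio a → ℕ)) ↪ K ω) := by
    rwa [Cardinal.le_def] at hT
  have : Nonempty (Σ a : K ω, (ℕ × I × Iio a → ℕ)) :=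
    ⟨⟨Classical.arbitrary _, fun _ => 0⟩⟩
  refine ⟨fun b i ξ x => if h : x < (Function.invFun g b).1 then
    (Function.invFun g b).2 (i, ξ, ⟨x, h⟩) else 0, fun Z a => ?_⟩
  let t : Σ a : K ω, (ℕ × I × Iio a → ℕ) := ⟨a, fun p => Z p.1 p.2.1 p.2.2⟩
  refine ⟨g t, fun i ξ x hx => ?_⟩
  have ht : Function.invFun g (g t) = t := Function.leftInverse_invFun g.injective t
  have key : ∀ t' : (Σ a : K ω, (ℕ × I × Iio a → ℕ)), t' = t →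
      (if h : x < t'.1 then t'.2 (i, ξ, ⟨x, h⟩) else 0) = Z i ξ x := by
    rintro _ rfl
    exact dif_pos (show x < t.1 from hx)
  exact key _ ht

/-- the guessing principle on `S` -/
def Guess (S : Set (K ω)) : Prop :=
  ∃ D : K ω → K ω → ℕ, ∀ f : K ω → ℕ, ∀ C : Set (K ω), IsClub C →
    ∃ δ ∈ S, δ ∈ C ∧ ∀ x < δ, D δ x = f x

theorem stepA {S : Set (K ω)} (hS : IsStationary S)
    (hcf : ∀ δ ∈ S, ∀ η : ℕ → K ω, (∀ n, η n < δ) → ∃ x < δ, ∀ n, η n < x)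
    (W : K ω → ℕ → Set (K ω)) (hWm : ∀ δ, Monotone (W δ)) (hWU : ∀ δ, Iio δ = ⋃ n, W δ n)
    (e : K ω → ℕ → I → K ω → ℕ)
    (he : ∀ (Z : ℕ → I → K ω → ℕ) (a : K ω), ∃ b, ∀ i ξ, ∀ x < a, e b i ξ x = Z i ξ x) :
    ∃ i : ℕ, ∀ (Z : I → K ω → ℕ) (C : Set (K ω)), IsClub C →
      ∃ δ ∈ S, δ ∈ C ∧ ∀ η < δ, ∃ a ∈ W δ i, η < a ∧
        ∃ b ∈ W δ i, ∀ ξ, ∀ x < a, e b i ξ x = Z ξ x := by
  by_contra hcon
  push Not at hcon
  choose Z C hC hbad using hcon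
  choose β hβ using he Z
  have h0 := aleph0_lt_cof_K ω
  have hclub : IsClub ((⋂ i, C i) ∩ {γ | ∀ a < γ, β a < γ}) := by
    refine IsClub.inter h0.ne' (IsClub.iInter_of_countable h0.ne' hC) ?_
    exact isClub_fun h0 (fun x => (Iio_K ω x).trans_lt (aleph_lt_cof_K ω)) β
  obtain ⟨δ, hδS, hδC, hδβ⟩ := hS hclub
  have hη : ∀ i, ∃ η < δ, ∀ a ∈ W δ i, η < a → ∀ b ∈ W δ i,
      ∃ ξ, ∃ x < a, e b i ξ x ≠ Z i ξ x := by
    intro i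
    exact hbad i δ hδS (mem_iInter.1 hδC i)
  choose η hηδ hη using hη
  obtain ⟨x, hxδ, hx⟩ := hcf δ hδS η hηδ
  have h1 : x ∈ ⋃ n, W δ n := (hWU δ) ▸ hxδ
  have h2 : β x ∈ ⋃ n, W δ n := (hWU δ) ▸ (hδβ x hxδ)
  obtain ⟨n1, hn1⟩ := mem_iUnion.1 h1
  obtain ⟨n2, hn2⟩ := mem_iUnion.1 h2
  obtain ⟨ξ, y, hy, hne⟩ := hη (max n1 n2) x (hWm δ (le_max_left _ _) hn1) (hx _) (β x)
    (hWm δ (le_max_right _ _) hn2)
  exact hne (hβ x _ ξ y hy)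

theorem guess_of_stationary (gch : GCH) {S : Set (K ω)} (hS : IsStationary S)
    (hcf : ∀ δ ∈ S, ∀ η : ℕ → K ω, (∀ n, η n < δ) → ∃ x < δ, ∀ n, η n < x) : Guess S := by
  classical
  choose W hWm hWc hWU using fun δ : K ω => exists_layers (Iio δ) (Iio_K ω δ)
  obtain ⟨e, he⟩ := exists_enum gch
  obtain ⟨i, hi⟩ := stepA hS hcf W hWm hWU e he
  unfold Guess
  by_contra hcon
  push Not at hcon
  choose F Cl hCl hF using hcon
  have wf : WellFounded ((· < ·) : I → I → Prop) := wellFounded_lt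
  let P : (ξ : I) → ((ζ : I) → ζ < ξ → (K ω → ℕ)) → K ω → K ω → (K ω × K ω) → Prop :=
    fun ξ prev δ x p => p.1 ∈ W δ i ∧ p.2 ∈ W δ i ∧ x < p.1 ∧
      ∀ ζ (hζ : ζ < ξ), ∀ y < p.1, e p.2 i ζ y = prev ζ hζ y
  let Dd : (ξ : I) → ((ζ : I) → ζ < ξ → (K ω → ℕ)) → K ω → K ω → ℕ :=
    fun ξ prev δ x => if h : ∃ p, P ξ prev δ x p then e h.choose.2 i ξ x else 0
  let Z : I → (K ω → ℕ) := wf.fix (fun ξ prev => F (Dd ξ prev))
  have hZ : ∀ ξ, Z ξ = F (Dd ξ (fun ζ _ => Z ζ)) := fun ξ => wf.fix_eq _ ξ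
  have h0 := aleph0_lt_cof_K ω
  have hclub : IsClub (⋂ ξ : I, Cl (Dd ξ (fun ζ _ => Z ζ))) := by
    refine IsClub.iInter h0.ne' ?_ (fun ξ => hCl _)
    simp only [Cardinal.lift_id, mk_I]
    exact aleph_lt_cof_K ω
  obtain ⟨δ, hδS, hδC, hgood⟩ := hi Z _ hclub
  have hx : ∀ ξ : I, ∃ x < δ, Dd ξ (fun ζ _ => Z ζ) δ x ≠ Z ξ x := by
    intro ξ
    have := hF (Dd ξ (fun ζ _ => Z ζ)) δ hδS (mem_iInter.1 hδC ξ)
    rw [← hZ ξ] at this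
    exact this
  choose x hxδ hx using hx
  have hp : ∀ ξ : I, ∃ p : K ω × K ω, p.1 ∈ W δ i ∧ p.2 ∈ W δ i ∧ x ξ < p.1 ∧
      (∀ ζ < ξ, ∀ y < p.1, e p.2 i ζ y = Z ζ y) ∧ e p.2 i ξ (x ξ) ≠ Z ξ (x ξ) := by
    intro ξ
    have hex : ∃ p, P ξ (fun ζ _ => Z ζ) δ (x ξ) p := by
      obtain ⟨a, haW, hxa, b, hbW, hb⟩ := hgood (x ξ) (hxδ ξ)
      exact ⟨(a, b), haW, hbW, hxa, fun ζ _ y hy => hb ζ y hy⟩
    have h1 := hex.choose_spec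
    have h2 : Dd ξ (fun ζ _ => Z ζ) δ (x ξ) = e hex.choose.2 i ξ (x ξ) := by
      simp only [Dd]
      rw [dif_pos hex]
    refine ⟨hex.choose, h1.1, h1.2.1, h1.2.2.1, fun ζ hζ y hy => h1.2.2.2 ζ hζ y hy, ?_⟩
    rw [← h2]; exact hx ξ
  choose p hp1 hp2 hp3 hp4 hp5 using hp
  have hinj : Function.Injective (fun ξ : I => (⟨p ξ, ⟨hp1 ξ, hp2 ξ⟩⟩ :
      (W δ i ×ˢ W δ i : Set (K ω × K ω)))) := by
    have key : ∀ ξ ξ' : I, ξ < ξ' → p ξ ≠ p ξ' := by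
      intro ξ ξ' hlt heq
      have := hp4 ξ' ξ hlt (x ξ) (heq ▸ hp3 ξ)
      rw [← heq] at this
      exact hp5 ξ this
    intro ξ ξ' h
    have h' : p ξ = p ξ' := congrArg Subtype.val h
    rcases lt_trichotomy ξ ξ' with hlt | heq | hlt
    · exact absurd h' (key _ _ hlt)
    · exact heq
    · exact absurd h'.symm (key _ _ hlt)
  have hle := Cardinal.mk_le_of_injective hinj
  rw [mk_I, Cardinal.mk_setProd] at hle
  have h3 : (#(W δ i)) * #(W δ i) ≤ ℵ_ ((i : Ordinal.{0}) + 1) :=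
    (mul_le_mul' (hWc δ i) (hWc δ i)).trans (Cardinal.mul_eq_self (aleph0_le_aleph _)).le
  have h4 := hle.trans h3
  rw [aleph_le_aleph] at h4
  have : ((i : Ordinal.{0}) + 1) < ω := by exact_mod_cast natCast_lt_omega0 (i + 1)
  exact absurd this (not_lt.2 h4)

end Sad
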