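import Pool.Agent.Lib_helper4.Sad.Exact

/-! The equivalences. -/

open Cardinal Order Set Ordinal

namespace Sad

/-! ### ladders give families of uncountable chromatic number -/

theorem aleph_one_le_of_not_countable {β : Type} {s : Set β} (h : ¬ s.Countable) :
    ℵ_ 1 ≤ #s := by
  rw [← Cardinal.le_aleph0_iff_set_countable, not_le] at h
  have h1 : ℵ_ (1 : Ordinal.{0}) = succ ℵ₀ := by
    rw [← aleph_zero, succ_aleph]; simp
  rw [h1]
  exact Order.succ_le_of_lt h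

theorem isClub_Ici {κ : Type} [LinearOrder κ] (a : κ) : IsClub (Ici a) :=
  ⟨fun _ hd hne _ _ hb => le_trans (hd hne.some_mem) (hb.1 hne.some_mem),
    fun x => ⟨max a x, le_max_left _ _, le_max_right _ _⟩⟩

theorem mk_stationary {S : Set (K ω)} (hS : IsStationary S) : #S = ℵ_ (ω + 1) := by
  apply le_antisymm
  · exact (mk_set_le S).trans (mk_K ω).le
  · rw [← cof_K]
    refine Order.cof_le (fun a => ?_)
    obtain ⟨x, hx, hxa⟩ := hS (isClub_Ici a)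
    exact ⟨x, hx, hxa⟩

theorem cf_of_ladder {δ : K ω} {L : Set (K ω)} (h1 : #L = ℵ_ 1) (h2 : L ⊆ Iio δ)
    (h3 : ∀ β < δ, (L ∩ Iio β).Countable) (η : ℕ → K ω) (hη : ∀ n, η n < δ) :
    ∃ x < δ, ∀ n, η n < x := by
  by_contra hcon
  push Not at hcon
  apply not_countable_of_mk h1
  have hsub : L ⊆ ⋃ n, (insert (η n) (L ∩ Iio (η n))) := by
    intro x hx
    obtain ⟨n, hn⟩ := hcon x (h2 hx)
    refine mem_iUnion.2 ⟨n, ?_⟩
    rcases hn.lt_or_eq with h | h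
    · exact Or.inr ⟨hx, h⟩
    · exact Or.inl h
  refine (countable_iUnion (fun n => ?_)).mono hsub
  exact (h3 _ (hη n)).insert _

/-- almost disjoint families of sets of size `ℵ_1` have the size of their index sets -/
theorem injOn_of_inter {β γ : Type} {S : Set γ} {A : γ → Set β} (h1 : ∀ x ∈ S, #(A x) = ℵ_ 1)
    (h2 : ∀ x ∈ S, ∀ y ∈ S, x ≠ y → (A x ∩ A y).Finite) : InjOn A S := by
  intro x hx y hy hxy
  by_contra hne
  have := h2 x hx y hy hne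
  rw [← hxy, inter_self] at this
  exact infinite_of_mk (h1 x hx) this

/-- families with uncountable chromatic number from stationary ladder systems -/
theorem chromatic_of_ladder (gch : GCH) (h : LS) :
    ∃ 𝒜 : Set (Set (K ω)), #𝒜 = ℵ_ (ω + 1) ∧ (∀ A ∈ 𝒜, #A = ℵ_ 1) ∧
      (∀ A ∈ 𝒜, ∀ B ∈ 𝒜, A ≠ B → #(A ∩ B : Set (K ω)) < ℵ₀) ∧
      ∀ f : K ω → ℕ, ∃ A ∈ 𝒜, ∃ c, ∀ x ∈ A, f x = c := by
  obtain ⟨S, L, hS, hL, hLL⟩ := h
  obtain ⟨D, hD⟩ := guess_of_stationary gch hS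
    (fun δ hδ => cf_of_ladder (hL δ hδ).1 (hL δ hδ).2.1 (hL δ hδ).2.2)
  have hc : ∀ γ ∈ S, ∃ c : ℕ, ¬ {x ∈ L γ | D γ x = c}.Countable := by
    intro γ hγ
    by_contra hcon
    push Not at hcon
    apply not_countable_of_mk (hL γ hγ).1
    refine (countable_iUnion hcon).mono (fun x hx => ?_)
    exact mem_iUnion.2 ⟨D γ x, hx, rfl⟩
  choose! c hc using hc
  let A : K ω → Set (K ω) := fun γ => {x ∈ L γ | D γ x = c γ}
  have hA1 : ∀ γ ∈ S, #(A γ) = ℵ_ 1 := by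
    intro γ hγ
    apply le_antisymm
    · rw [← (hL γ hγ).1]
      exact mk_le_mk_of_subset (fun x hx => hx.1)
    · exact aleph_one_le_of_not_countable (hc γ hγ)
  have hA2 : ∀ x ∈ S, ∀ y ∈ S, x ≠ y → (A x ∩ A y).Finite := by
    intro x hx y hy hne
    exact (hLL x hx y hy hne).subset (inter_subset_inter (fun _ h => h.1) (fun _ h => h.1))
  refine ⟨A '' S, ?_, ?_, ?_, ?_⟩
  · rw [mk_image_eq_of_injOn _ _ (injOn_of_inter hA1 hA2), mk_stationary hS]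
  · rintro _ ⟨γ, hγ, rfl⟩; exact hA1 γ hγ
  · rintro _ ⟨x, hx, rfl⟩ _ ⟨y, hy, rfl⟩ hne
    rw [Cardinal.lt_aleph0_iff_set_finite]
    exact hA2 x hx y hy (fun h => hne (by rw [h]))
  · intro f
    obtain ⟨δ, hδ, -, hfD⟩ := hD f Set.univ .univ
    refine ⟨A δ, ⟨δ, hδ, rfl⟩, c δ, fun x hx => ?_⟩
    rw [← hfD x ((hL δ hδ).2.1 hx.1)]
    exact hx.2

/-- essentially disjoint families have transversals -/
theorem transversal_of_ED {α : Type} {𝒜 : Set (Set α)} (h1 : ∀ A ∈ 𝒜, #A = ℵ_ 1) (h : ED 𝒜) :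
    ∃ T : Set α, ∀ A ∈ 𝒜, 0 < #(T ∩ A : Set α) ∧ #(T ∩ A : Set α) < ℵ_ 1 := by
  obtain ⟨F, hF1, hF2⟩ := h
  have hne : ∀ A ∈ 𝒜, (A \ F A).Nonempty := by
    intro A hA
    by_contra hcon
    rw [not_nonempty_iff_eq_empty, sdiff_eq_empty] at hcon
    exact not_countable_of_mk (h1 A hA) ((hF1 A hA).mono hcon)
  rcases isEmpty_or_nonempty α with hα | hα
  · exact ⟨∅, fun A hA => (hne A hA).elim (fun x _ => hα.elim x)⟩
  choose! t ht using hne
  refine ⟨t '' 𝒜, fun A hA => ⟨?_, ?_⟩⟩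
  · rw [pos_iff_ne_zero, mk_ne_zero_iff]
    exact ⟨⟨t A, ⟨A, hA, rfl⟩, (ht A hA).1⟩⟩
  · have hc : (t '' 𝒜 ∩ A).Countable := by
      refine ((hF1 A hA).insert (t A)).mono ?_
      rintro _ ⟨⟨B, hB, rfl⟩, hBA⟩
      by_cases hAB : B = A
      · left; rw [hAB]
      · right
        by_contra hn
        exact Set.disjoint_left.1 (hF2 B hB A hA hAB) (ht B hB) ⟨hBA, hn⟩
    refine (Cardinal.le_aleph0_iff_set_countable.2 hc).trans_lt ?_
    rw [← aleph_zero, aleph_lt_aleph]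
    exact zero_lt_one

/-- a family of uncountable chromatic number has no transversal -/
theorem no_transversal {α : Type} {𝒜 : Set (Set α)} (h1 : ∀ A ∈ 𝒜, #A = ℵ_ 1)
    (h : ∀ f : α → ℕ, ∃ A ∈ 𝒜, ∃ c, ∀ x ∈ A, f x = c) :
    ¬ ∃ T : Set α, ∀ A ∈ 𝒜, 0 < #(T ∩ A : Set α) ∧ #(T ∩ A : Set α) < ℵ_ 1 := by
  classical
  rintro ⟨T, hT⟩
  obtain ⟨A, hA, c, hc⟩ := h (fun x => if x ∈ T then 1 else 0)
  obtain ⟨h2, h3⟩ := hT A hA
  rw [pos_iff_ne_zero, mk_ne_zero_iff] at h2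
  obtain ⟨⟨x, hxT, hxA⟩⟩ := h2
  have hc1 : c = 1 := by
    rw [← hc x hxA, if_pos hxT]
  have : T ∩ A = A := by
    refine inter_eq_right.2 (fun y hy => ?_)
    by_contra hyT
    have := hc y hy
    rw [if_neg hyT, hc1] at this
    exact absurd this (by norm_num)
  rw [this, h1 A hA] at h3
  exact lt_irrefl _ h3

/-! ### the canonical set -/

/-- a decomposition of every initial segment into countably many smaller sets -/
def IsMatrix (W : K ω → ℕ → Set (K ω)) : Prop :=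
  ∀ β, (⋃ n, W β n) = Iio β ∧ ∀ n, #(W β n) < ℵ_ ω

/-- the canonical set of a decomposition -/
def Spts (W : K ω → ℕ → Set (K ω)) : Set (K ω) :=
  {δ | ∃ L ⊆ Iio δ, #L = ℵ_ 1 ∧ ∀ β < δ, ∀ n, (L ∩ W β n).Finite}

theorem exists_matrix : ∃ W, IsMatrix W := by
  choose W hWm hWc hWU using fun δ : K ω => exists_layers (Iio δ) (Iio_K ω δ)
  refine ⟨W, fun β => ⟨(hWU β).symm, fun n => (hWc β n).trans_lt ?_⟩⟩
  rw [aleph_lt_aleph]
  exact_mod_cast natCast_lt_omega0 (n + 1)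

theorem ladder_of_Spts {W : K ω → ℕ → Set (K ω)} (hW : IsMatrix W)
    (hS : IsStationary (Spts W)) : LS := by
  choose! L hL1 hL2 hL3 using fun δ (hδ : δ ∈ Spts W) => hδ
  have hn : ∀ δ ∈ Spts W, ∃ n, ¬ (L δ ∩ W δ n).Countable := by
    intro δ hδ
    by_contra hcon
    push Not at hcon
    apply not_countable_of_mk (hL2 δ hδ)
    refine (countable_iUnion hcon).mono (fun x hx => ?_)
    have : x ∈ ⋃ n, W δ n := by rw [(hW δ).1]; exact hL1 δ hδ hx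
    obtain ⟨n, hn⟩ := mem_iUnion.1 this
    exact mem_iUnion.2 ⟨n, hx, hn⟩
  choose! n hn using hn
  refine ⟨Spts W, fun δ => L δ ∩ W δ (n δ), hS, fun δ hδ => ⟨?_, ?_, ?_⟩, ?_⟩
  · apply le_antisymm
    · rw [← hL2 δ hδ]
      exact mk_le_mk_of_subset inter_subset_left
    · exact aleph_one_le_of_not_countable (hn δ hδ)
  · exact inter_subset_left.trans (hL1 δ hδ)
  · intro β hβ
    have : L δ ∩ W δ (n δ) ∩ Iio β ⊆ ⋃ m, (L δ ∩ W β m) := by
      rintro x ⟨⟨hx, -⟩, hxβ⟩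
      rw [← (hW β).1] at hxβ
      obtain ⟨m, hm⟩ := mem_iUnion.1 hxβ
      exact mem_iUnion.2 ⟨m, hx, hm⟩
    exact (countable_iUnion (fun m => (hL3 δ hδ β hβ m).countable)).mono this
  · have key : ∀ δ ∈ Spts W, ∀ δ' ∈ Spts W, δ < δ' →
        (L δ ∩ W δ (n δ) ∩ (L δ' ∩ W δ' (n δ'))).Finite := by
      intro δ hδ δ' hδ' hlt
      refine (hL3 δ' hδ' δ hlt (n δ)).subset ?_
      rintro x ⟨⟨-, hx⟩, ⟨hx', -⟩⟩
      exact ⟨hx', hx⟩
    intro δ hδ δ' hδ' hne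
    rcases lt_or_gt_of_ne hne with h | h
    · exact key δ hδ δ' hδ' h
    · rw [inter_comm]; exact key δ' hδ' δ hδ h

theorem exists_aleph_of_lt {c : Cardinal.{0}} (h : c < ℵ_ ω) : ∃ n : ℕ, c ≤ ℵ_ (n : Ordinal.{0}) := by
  by_contra hcon
  push Not at hcon
  refine absurd h (not_lt.2 ?_)
  rw [isNormal_aleph.le_iff_forall_le isSuccLimit_omega0]
  intro b hb
  obtain ⟨n, rfl⟩ := Ordinal.lt_omega0.1 hb
  exact (hcon n).le

theorem Spts_of_ladder (gch : GCH) (h : LS) {W : K ω → ℕ → Set (K ω)} (hW : IsMatrix W) :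
    IsStationary (Spts W) := by
  obtain ⟨S, L, hS, hL, hLL⟩ := h
  by_contra hns
  obtain ⟨C, hC, hdis⟩ := not_isStationary_iff.1 hns
  have h0 := aleph0_lt_cof_K ω
  have hinj : InjOn L S := injOn_of_inter (fun x hx => (hL x hx).1) hLL
  have hAD : AD (L '' S) := by
    rintro _ ⟨x, hx, rfl⟩ _ ⟨y, hy, rfl⟩ hne
    exact hLL x hx y hy (fun h => hne (by rw [h]))
  have hb : ∀ β : K ω, ∃ b : K ω, ∀ δ ∈ S, (∃ n, (L δ ∩ W β n).Infinite) → δ < b := by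
    intro β
    have hcard : #{δ ∈ S | ∃ n, (L δ ∩ W β n).Infinite} ≤ ℵ_ ω := by
      have hsub : {δ ∈ S | ∃ n, (L δ ∩ W β n).Infinite} ⊆
          ⋃ n, {δ ∈ S | (L δ ∩ W β n).Infinite} := by
        rintro δ ⟨hδ, n, hn⟩
        exact mem_iUnion.2 ⟨n, hδ, hn⟩
      refine (mk_le_mk_of_subset hsub).trans ((Cardinal.mk_iUnion_le _).trans ?_)
      have hinf : ℵ₀ ≤ ℵ_ ω := aleph0_le_aleph _
      refine (mul_le_mul' ((Cardinal.mk_le_aleph0).trans hinf) (ciSup_le' (fun n => ?_))).trans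
        (Cardinal.mul_eq_self hinf).le
      obtain ⟨m, hm⟩ := exists_aleph_of_lt ((hW β).2 n)
      have hm' : #(W β n) ≤ ℵ_ ((m : Ordinal.{0}) + 1) := by
        refine hm.trans ?_
        rw [aleph_le_aleph]; simp
      have h1 := card_infinite_le hAD (W β n) hm' (gch.pow_aleph_succ m)
      rw [← mk_image_eq_of_injOn L _ (hinj.mono (fun x hx => hx.1))]
      refine ((mk_le_mk_of_subset ?_).trans h1).trans ?_
      · rintro _ ⟨δ, ⟨hδ, hn⟩, rfl⟩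
        exact ⟨⟨δ, hδ, rfl⟩, hn⟩
      · rw [aleph_le_aleph]
        have : ((m : Ordinal.{0}) + 1) < ω := by exact_mod_cast natCast_lt_omega0 (m + 1)
        exact this.le
    obtain ⟨b, hb⟩ := exists_bound (hcard.trans_lt (aleph_lt_cof_K ω))
    exact ⟨b, fun δ hδ hn => hb δ ⟨hδ, hn⟩⟩
  choose b hb using hb
  have hclub : IsClub (C ∩ {γ | ∀ β < γ, b β < γ}) :=
    hC.inter h0.ne' (isClub_fun h0 (fun x => (Iio_K ω x).trans_lt (aleph_lt_cof_K ω)) b)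
  obtain ⟨δ, hδS, hδC, hδb⟩ := hS hclub
  have hδ : δ ∉ Spts W := fun h => Set.disjoint_left.1 hdis h hδC
  apply hδ
  refine ⟨L δ, (hL δ hδS).2.1, (hL δ hδS).1, fun β hβ n => ?_⟩
  by_contra hn
  exact lt_asymm (hb β δ hδS ⟨n, hn⟩) (hδb β hβ)

end Sad
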