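import Pool.Agent.Lib_helper4.Sad.Diamond

/-! Adding sets to a family so that the least bound for the intersections is attained. -/

open Cardinal Order Set Ordinal

namespace Sad

variable {α : Type}

/-- the ground type of the added sets -/
abbrev Ext (ν κ : Cardinal.{0}) : Type := ν.ord.ToType ⊕ (ν.ord.ToType × κ.ord.ToType)

/-- the added sets -/
def extSet (ν κ : Cardinal.{0}) (x : ν.ord.ToType) : Set (Ext ν κ) :=
  {p | (∃ y ≤ x, p = Sum.inl y) ∨ ∃ z, p = Sum.inr (x, z)}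

theorem inl_mem_extSet {ν κ : Cardinal.{0}} {x y : ν.ord.ToType} :
    (Sum.inl y : Ext ν κ) ∈ extSet ν κ x ↔ y ≤ x := by
  simp [extSet]

theorem inr_mem_extSet {ν κ : Cardinal.{0}} {x y : ν.ord.ToType} {z : κ.ord.ToType} :
    (Sum.inr (y, z) : Ext ν κ) ∈ extSet ν κ x ↔ y = x := by
  simp [extSet]

theorem mk_extSet {ν κ : Cardinal.{0}} (h0 : ℵ₀ ≤ ν) (h1 : ν ≤ κ) (x : ν.ord.ToType) :
    #(extSet ν κ x) = κ := by
  have h0κ : ℵ₀ ≤ κ := h0.trans h1
  apply le_antisymm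
  · refine (mk_set_le _).trans ?_
    rw [Cardinal.mk_sum, Cardinal.mk_prod]
    simp only [mk_ord_toType, Cardinal.lift_id]
    calc ν + ν * κ ≤ κ + κ * κ := add_le_add h1 (mul_le_mul' h1 le_rfl)
      _ = κ := by rw [Cardinal.mul_eq_self h0κ, Cardinal.add_eq_self h0κ]
  · have : #(κ.ord.ToType) ≤ #(extSet ν κ x) := by
      refine Cardinal.mk_le_of_injective
        (f := fun z : κ.ord.ToType => (⟨Sum.inr (x, z), inr_mem_extSet.2 rfl⟩ : extSet ν κ x)) ?_
      intro z z' h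
      have h' := congrArg Subtype.val h
      simpa using h'
    rwa [mk_ord_toType] at this

theorem mk_Iic_lt_ord {ν : Cardinal.{0}} (h0 : ℵ₀ ≤ ν) (x : ν.ord.ToType) : #(Iic x) < ν := by
  have : Iic x = insert x (Iio x) := by
    ext y; simp [le_iff_eq_or_lt]
  rw [this]
  refine mk_insert_le.trans_lt ?_
  exact add_lt_of_lt h0 (by simpa using mk_Iio_lt x (by simp)) (one_lt_aleph0.trans_le h0)

theorem extSet_inter {ν κ : Cardinal.{0}} {x y : ν.ord.ToType} (h : x < y) :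
    (extSet ν κ x ∩ extSet ν κ y) = Sum.inl '' Iic x := by
  ext p
  rcases p with a | ⟨a, b⟩
  · simp only [mem_inter_iff, inl_mem_extSet, mem_image, mem_Iic, Sum.inl.injEq,
      exists_eq_right]
    exact ⟨fun h' => h'.1, fun h' => ⟨h', h'.trans h.le⟩⟩
  · simp only [mem_inter_iff, inr_mem_extSet, mem_image, mem_Iic, reduceCtorEq, and_false,
      exists_false, iff_false, not_and]
    rintro rfl
    exact h.ne

theorem mk_extSet_inter {ν κ : Cardinal.{0}} {x y : ν.ord.ToType} (h : x < y) :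
    #(extSet ν κ x ∩ extSet ν κ y : Set (Ext ν κ)) = #(Iic x) := by
  rw [extSet_inter h, mk_image_eq Sum.inl_injective]

/-- adding sets to a family so that the least bound for the intersections is attained -/
theorem exact_ext (𝒜 : Set (Set α)) {ν κ μ : Cardinal.{0}} (h0 : ℵ₀ ≤ ν) (hκ : ν ≤ κ)
    (hμ : ν ≤ μ) (h1 : #𝒜 = μ) (h2 : ∀ A ∈ 𝒜, #A = κ)
    (h3 : ∀ A ∈ 𝒜, ∀ B ∈ 𝒜, A ≠ B → #(A ∩ B : Set α) < ν) :
    ∃ (β : Type) (ℬ : Set (Set β)) (j : α → β), j.Injective ∧ #ℬ = μ ∧ (∀ B ∈ ℬ, #B = κ) ∧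
      IsLeast {δ : Cardinal.{0} | ∀ A ∈ ℬ, ∀ B ∈ ℬ, A ≠ B → #(A ∩ B : Set β) < δ} ν ∧
      ∀ A ∈ 𝒜, j '' A ∈ ℬ := by
  have h0μ : ℵ₀ ≤ μ := h0.trans hμ
  let E : ν.ord.ToType → Set (α ⊕ Ext ν κ) := fun x => Sum.inr '' extSet ν κ x
  have hE1 : ∀ x, #(E x) = κ := by
    intro x
    rw [mk_image_eq Sum.inr_injective, mk_extSet h0 hκ]
  have hE2 : ∀ x y, x < y → #(E x ∩ E y : Set (α ⊕ Ext ν κ)) = #(Iic x) := by
    intro x y hxy
    show #(Sum.inr '' extSet ν κ x ∩ Sum.inr '' extSet ν κ y : Set (α ⊕ Ext ν κ)) = _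
    rw [← image_inter Sum.inr_injective, mk_image_eq Sum.inr_injective, mk_extSet_inter hxy]
  have hEne : ∀ x y, x < y → E x ≠ E y := by
    intro x y hxy heq
    have h := hE2 x y hxy
    rw [heq, inter_self, hE1] at h
    have := mk_Iic_lt_ord h0 x
    rw [← h] at this
    exact absurd hκ (not_le.2 this)
  let ℬ : Set (Set (α ⊕ Ext ν κ)) := (fun A => Sum.inl '' A) '' 𝒜 ∪ range E
  refine ⟨α ⊕ Ext ν κ, ℬ, Sum.inl, Sum.inl_injective, ?_, ?_, ⟨?_, ?_⟩, ?_⟩
  · apply le_antisymm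
    · refine (mk_union_le _ _).trans ?_
      calc _ ≤ μ + μ := add_le_add (mk_image_le.trans h1.le)
            ((mk_range_le (f := E)).trans (by rw [mk_ord_toType]; exact hμ))
        _ = μ := Cardinal.add_eq_self h0μ
    · rw [← h1, ← mk_image_eq (f := fun A : Set α => (Sum.inl '' A : Set (α ⊕ Ext ν κ)))
        (Sum.inl_injective.image_injective)]
      exact mk_le_mk_of_subset subset_union_left
  · rintro B (⟨A, hA, rfl⟩ | ⟨x, rfl⟩)
    · exact (mk_image_eq Sum.inl_injective).trans (h2 A hA)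
    · exact hE1 x
  · rintro A (⟨A, hA, rfl⟩ | ⟨x, rfl⟩) B (⟨B, hB, rfl⟩ | ⟨y, rfl⟩) hne
    · simp only
      rw [← image_inter Sum.inl_injective, mk_image_eq Sum.inl_injective]
      exact h3 A hA B hB (fun h => hne (by rw [h]))
    · have : (Sum.inl '' A ∩ E y : Set (α ⊕ Ext ν κ)) = ∅ := by
        ext p; rcases p with p | p <;> simp [E]
      simp only [this]
      rw [mk_eq_zero]
      exact aleph0_pos.trans_le h0
    · have : (E x ∩ Sum.inl '' B : Set (α ⊕ Ext ν κ)) = ∅ := by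
        ext p; rcases p with p | p <;> simp [E]
      simp only [this]
      rw [mk_eq_zero]
      exact aleph0_pos.trans_le h0
    · rcases lt_trichotomy x y with h | h | h
      · rw [hE2 x y h]; exact mk_Iic_lt_ord h0 x
      · exact absurd (congrArg E h) hne
      · rw [inter_comm, hE2 y x h]; exact mk_Iic_lt_ord h0 y
  · intro δ hδ
    by_contra hlt
    rw [not_le] at hlt
    have hlt' : δ.ord < ν.ord := Cardinal.ord_lt_ord.2 hlt
    let x : ν.ord.ToType := ToType.mk ⟨δ.ord, hlt'⟩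
    have hx : #(Iio x) = δ := by
      have := Ordinal.card_typein (r := ((· < ·) : ν.ord.ToType → ν.ord.ToType → Prop)) x
      have h2 : typein ((· < ·) : ν.ord.ToType → ν.ord.ToType → Prop) x = δ.ord := by
        have h3 := congrArg Subtype.val ((ToType.mk (o := ν.ord)).symm_apply_apply ⟨δ.ord, hlt'⟩)
        exact h3
      rw [h2, card_ord] at this
      exact this.symm
    have hxc : #(Iic x) < #(ν.ord.ToType) := by rw [mk_ord_toType]; exact mk_Iic_lt_ord h0 x
    obtain ⟨y, hy⟩ : ∃ y, y ∉ Iic x := by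
      by_contra hcon
      push Not at hcon
      have : Iic x = Set.univ := eq_univ_of_forall hcon
      rw [this, mk_univ] at hxc
      exact lt_irrefl _ hxc
    have hxy : x < y := not_le.1 hy
    have h4 := hδ (E x) (Or.inr ⟨x, rfl⟩) (E y) (Or.inr ⟨y, rfl⟩) (hEne x y hxy)
    rw [hE2 x y hxy, ← hx] at h4
    exact absurd (mk_le_mk_of_subset Iio_subset_Iic_self) (not_le.2 h4)
  · intro A hA
    exact Or.inl ⟨A, hA, rfl⟩

end Sad
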