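import Pool.Agent.Lib_helper4.Sad.Small

/-! A family of `ℵ_(ω+1)` sets of size `ℵ_1` with finite intersections which is not essentially
disjoint traps a stationary set of points (GCH). -/

open Cardinal Order Set Ordinal

namespace Sad

variable {α : Type}

/-- stationary ladder systems of type `ω_1` on `ω_(ω+1)` with finite intersections -/
def LS : Prop :=
  ∃ (S : Set (K ω)) (L : K ω → Set (K ω)), IsStationary S ∧
    (∀ γ ∈ S, #(L γ) = ℵ_ 1 ∧ L γ ⊆ Iio γ ∧ ∀ β < γ, (L γ ∩ Iio β).Countable) ∧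
    ∀ γ ∈ S, ∀ γ' ∈ S, γ ≠ γ' → (L γ ∩ L γ').Finite

theorem aleph_one_lt_cof_K : ℵ_ 1 < Order.cof (K ω) := by
  rw [cof_K, aleph_lt_aleph]
  exact one_lt_omega0.trans (by simp)

theorem ladder_of_not_ED (gch : GCH) {𝒜 : Set (Set α)} (hAD : AD 𝒜)
    (hA1 : ∀ A ∈ 𝒜, #A = ℵ_ 1) (hc : #𝒜 ≤ ℵ_ (ω + 1)) (hED : ¬ ED 𝒜) : LS := by
  have hU : #(⋃₀ 𝒜) ≤ #(K ω) := by
    rw [mk_K]
    refine card_sUnion_le (aleph0_le_aleph _) hc (fun A hA => ?_)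
    rw [hA1 A hA, aleph_le_aleph]
    exact (one_lt_omega0.trans (by simp)).le
  obtain ⟨r, hr⟩ := exists_injOn hU
  have hAU : ∀ A ∈ 𝒜, A ⊆ ⋃₀ 𝒜 := fun A hA => subset_sUnion_of_mem hA
  have hcount : ∀ γ : K ω, #{A ∈ 𝒜 | ¬ (A ∩ r ⁻¹' Iio γ).Countable} ≤ ℵ_ ω := by
    intro γ
    have := card_uncountable_le gch hAD (⋃₀ 𝒜 ∩ r ⁻¹' Iio γ)
      ((mk_inter_preimage_le hr _).trans (Iio_K ω γ))
    refine (mk_le_mk_of_subset ?_).trans this
    rintro A ⟨hA, hinf⟩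
    refine ⟨hA, ?_⟩
    rwa [← inter_assoc, inter_eq_self_of_subset_left (hAU A hA)]
  have hstat : IsStationary (Trap 𝒜 r (fun s => ¬ s.Countable)) := by
    by_contra hns
    apply hED
    refine ED.of_trap (κ := K ω) (aleph0_lt_cof_K ω) r (fun s => ¬ s.Countable)
      (fun s t h hs ht => hs (ht.mono h)) (fun β => ?_) (fun A hA => ?_) (fun γ => ?_) hns
    · have h2 : #(⋃₀ {A ∈ 𝒜 | ¬ (A ∩ r ⁻¹' Iio β).Countable}) ≤ ℵ_ ω :=
        card_sUnion_le (aleph0_le_aleph ω) (hcount β)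
          (fun A hA => by rw [hA1 A hA.1, aleph_le_aleph]; exact one_lt_omega0.le)
      obtain ⟨b, hb⟩ := exists_bound (κ := K ω)
        (s := r '' (⋃₀ {A ∈ 𝒜 | ¬ (A ∩ r ⁻¹' Iio β).Countable}))
        ((mk_image_le.trans h2).trans_lt (aleph_lt_cof_K ω))
      exact ⟨b, fun A hA hinf x hx => hb _ ⟨x, ⟨A, ⟨hA, hinf⟩, hx⟩, rfl⟩⟩
    · obtain ⟨b, hb⟩ := exists_bound (κ := K ω) (s := r '' A)
        (mk_image_le.trans_lt (by rw [hA1 A hA]; exact aleph_one_lt_cof_K))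
      exact ⟨b, fun x hx => hb _ ⟨x, hx, rfl⟩⟩
    · refine small_omega gch _ (hAD.mono fun A hA => hA.1) (fun A hA => hA1 A hA.1) ?_
      refine (mk_le_mk_of_subset ?_).trans (hcount γ)
      rintro A ⟨hA, hs⟩
      refine ⟨hA, ?_⟩
      rw [inter_eq_self_of_subset_left hs]
      exact not_countable_of_mk (hA1 A hA)
  classical
  choose! A hA hA2 hA3 using fun γ (hγ : γ ∈ Trap 𝒜 r (fun s => ¬ s.Countable)) => hγ
  simp only [not_not] at hA2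
  refine ⟨_, fun γ => r '' (A γ ∩ r ⁻¹' Iio γ), hstat, fun γ hγ => ⟨?_, ?_, ?_⟩, ?_⟩
  · apply le_antisymm
    · refine mk_image_le.trans ((mk_le_mk_of_subset inter_subset_left).trans ?_)
      rw [hA1 _ (hA γ hγ)]
    · rw [mk_image_eq_of_injOn _ _ (hr.mono (inter_subset_left.trans (hAU _ (hA γ hγ))))]
      have h := hA3 γ hγ
      rw [← Cardinal.le_aleph0_iff_set_countable, not_le] at h
      have h1 : ℵ_ (1 : Ordinal.{0}) = succ ℵ₀ := by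
        rw [← aleph_zero, succ_aleph]; simp
      rw [h1]
      exact Order.succ_le_of_lt h
  · rintro _ ⟨x, hx, rfl⟩; exact hx.2
  · intro β hβ
    refine ((hA2 γ hγ β hβ).image r).mono ?_
    rintro _ ⟨⟨x, hx, rfl⟩, hxβ⟩
    exact ⟨x, ⟨hx.1, hxβ⟩, rfl⟩
  · intro γ hγ γ' hγ' hne
    have hneA : A γ ≠ A γ' := by
      intro heq
      rcases lt_or_gt_of_ne hne with h | h
      · exact hA3 γ hγ (heq ▸ hA2 γ' hγ' γ h)
      · exact hA3 γ' hγ' (heq ▸ hA2 γ hγ γ' h)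
    refine ((hAD _ (hA γ hγ) _ (hA γ' hγ') hneA).image r).subset ?_
    rintro _ ⟨⟨x, hx, rfl⟩, ⟨y, hy, hxy⟩⟩
    have : y = x := hr (hAU _ (hA γ' hγ') hy.1) (hAU _ (hA γ hγ) hx.1) hxy
    subst this
    exact ⟨y, ⟨hx.1, hy.1⟩, rfl⟩

end Sad
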