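import Pool.Agent.Lib_helper4.Sad.Club

/-! Families of at most `ℵ_ω` sets of size `ℵ_1` with finite intersections are essentially
disjoint (GCH). -/

open Cardinal Order Set Ordinal

namespace Sad

/-- the index order -/
abbrev K (o : Ordinal.{0}) : Type := (ℵ_ (o + 1)).ord.ToType

theorem cof_K (o : Ordinal.{0}) : Order.cof (K o) = ℵ_ (o + 1) := by
  rw [Ordinal.cof_toType]
  exact (isRegular_aleph_add_one o).cof_ord

theorem mk_K (o : Ordinal.{0}) : #(K o) = ℵ_ (o + 1) := mk_ord_toType _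

theorem Iio_K (o : Ordinal.{0}) (x : K o) : #(Iio x) ≤ ℵ_ o :=
  Iio_toType_le (succ_aleph o).symm x

theorem aleph_lt_cof_K (o : Ordinal.{0}) : ℵ_ o < Order.cof (K o) := by
  rw [cof_K, aleph_lt_aleph]; simp

theorem aleph0_lt_cof_K (o : Ordinal.{0}) : ℵ₀ < Order.cof (K o) :=
  (aleph0_le_aleph o).trans_lt (aleph_lt_cof_K o)

instance (o : Ordinal.{0}) : Nonempty (K o) := by
  rw [← mk_ne_zero_iff, mk_K]; exact (aleph_pos _).ne'

variable {α : Type}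

theorem infinite_of_mk {A : Set α} (h : #A = ℵ_ 1) : A.Infinite := by
  rw [← Set.infinite_coe_iff, Cardinal.infinite_iff, h]
  exact aleph0_le_aleph 1

theorem not_countable_of_mk {A : Set α} (h : #A = ℵ_ 1) : ¬ A.Countable := by
  rw [← Cardinal.le_aleph0_iff_set_countable, h, not_le, ← aleph_zero, aleph_lt_aleph]
  exact zero_lt_one

theorem mk_inter_preimage_le {κ : Type} {r : α → κ} {U : Set α} (hr : InjOn r U) (S : Set κ) :
    #(U ∩ r ⁻¹' S : Set α) ≤ #S := by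
  have h1 : #(U ∩ r ⁻¹' S : Set α) = #(r '' (U ∩ r ⁻¹' S)) :=
    (mk_image_eq_of_injOn _ _ (hr.mono inter_subset_left)).symm
  rw [h1]
  refine mk_le_mk_of_subset ?_
  rintro _ ⟨x, hx, rfl⟩
  exact hx.2

/-- the successor step `ℵ_(m+1) → ℵ_(m+2)` -/
theorem step_succ (gch : GCH) (m : ℕ)
    (ih : ∀ 𝒜 : Set (Set α), AD 𝒜 → (∀ A ∈ 𝒜, #A = ℵ_ 1) → #𝒜 ≤ ℵ_ ((m : Ordinal.{0}) + 1) → ED 𝒜)
    (𝒜 : Set (Set α)) (hAD : AD 𝒜) (hA1 : ∀ A ∈ 𝒜, #A = ℵ_ 1)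
    (hc : #𝒜 ≤ ℵ_ ((m : Ordinal.{0}) + 1 + 1)) : ED 𝒜 := by
  set o : Ordinal.{0} := (m : Ordinal.{0}) + 1 with ho
  have h1o : ℵ_ 1 ≤ ℵ_ o := by rw [aleph_le_aleph, ho]; simp
  have hU : #(⋃₀ 𝒜) ≤ #(K o) := by
    rw [mk_K]
    refine card_sUnion_le (aleph0_le_aleph _) hc (fun A hA => ?_)
    rw [hA1 A hA]
    exact h1o.trans (by rw [aleph_le_aleph]; simp)
  obtain ⟨r, hr⟩ := exists_injOn hU
  have hAU : ∀ A ∈ 𝒜, A ⊆ ⋃₀ 𝒜 := fun A hA => subset_sUnion_of_mem hA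
  have hpow : (ℵ_ o) ^ ℵ₀ ≤ ℵ_ o := gch.pow_aleph_succ m
  have hcount : ∀ γ : K o, #{A ∈ 𝒜 | (A ∩ r ⁻¹' Iio γ).Infinite} ≤ ℵ_ o := by
    intro γ
    have := card_infinite_le hAD (⋃₀ 𝒜 ∩ r ⁻¹' Iio γ)
      ((mk_inter_preimage_le hr _).trans (Iio_K o γ)) hpow
    refine (mk_le_mk_of_subset ?_).trans this
    rintro A ⟨hA, hinf⟩
    refine ⟨hA, ?_⟩
    rwa [← inter_assoc, inter_eq_self_of_subset_left (hAU A hA)]
  refine ED.of_trap (κ := K o) (aleph0_lt_cof_K o) r Set.Infinite (fun s t h hs => hs.mono h)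
    (fun β => ?_) (fun A hA => ?_) (fun γ => ?_) ?_
  · have h2 : #(⋃₀ {A ∈ 𝒜 | (A ∩ r ⁻¹' Iio β).Infinite}) ≤ ℵ_ o :=
      card_sUnion_le (aleph0_le_aleph o) (hcount β) (fun A hA => by rw [hA1 A hA.1]; exact h1o)
    obtain ⟨b, hb⟩ := exists_bound (κ := K o)
      (s := r '' (⋃₀ {A ∈ 𝒜 | (A ∩ r ⁻¹' Iio β).Infinite}))
      ((mk_image_le.trans h2).trans_lt (aleph_lt_cof_K o))
    refine ⟨b, fun A hA hinf x hx => hb _ ⟨x, ?_, rfl⟩⟩
    exact ⟨A, ⟨hA, hinf⟩, hx⟩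
  · obtain ⟨b, hb⟩ := exists_bound (κ := K o) (s := r '' A)
      (mk_image_le.trans_lt (by rw [hA1 A hA]; exact h1o.trans_lt (aleph_lt_cof_K o)))
    exact ⟨b, fun x hx => hb _ ⟨x, hx, rfl⟩⟩
  · refine ih _ (hAD.mono fun A hA => hA.1) (fun A hA => hA1 A hA.1) ?_
    refine (mk_le_mk_of_subset ?_).trans (hcount γ)
    rintro A ⟨hA, hs⟩
    refine ⟨hA, ?_⟩
    rw [inter_eq_self_of_subset_left hs]
    exact infinite_of_mk (hA1 A hA)
  · have : Trap 𝒜 r Set.Infinite = ∅ := by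
      rw [Set.eq_empty_iff_forall_notMem]
      rintro γ ⟨A, hA, hfin, hnc⟩
      apply hnc
      have hT : (r '' (A ∩ r ⁻¹' Iio γ)).Countable := by
        refine countable_of_finite_segments ?_
        rintro _ ⟨x, ⟨hxA, hxγ⟩, rfl⟩
        have := Set.not_infinite.1 (hfin (r x) hxγ)
        refine (this.image r).subset ?_
        rintro _ ⟨⟨y, ⟨hyA, -⟩, rfl⟩, hy⟩
        exact ⟨y, ⟨hyA, hy⟩, rfl⟩
      exact (Set.countable_of_injective_of_countable_image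
        (hr.mono (inter_subset_left.trans (hAU A hA))) hT)
    rw [this]
    exact not_isStationary_empty

theorem small_nat (gch : GCH) (n : ℕ) (𝒜 : Set (Set α)) (hAD : AD 𝒜)
    (hA1 : ∀ A ∈ 𝒜, #A = ℵ_ 1) (hc : #𝒜 ≤ ℵ_ ((n : Ordinal.{0}) + 1)) : ED 𝒜 := by
  induction n generalizing 𝒜 with
  | zero => exact ED.base hAD (by simpa using hc)
  | succ n ih =>
    refine step_succ gch n ih 𝒜 hAD hA1 ?_
    simpa using hc

/-- a set of size at most `ℵ_ω` is an increasing union of smaller sets -/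
theorem exists_layers (U : Set α) (h : #U ≤ ℵ_ ω) :
    ∃ Y : ℕ → Set α, Monotone Y ∧ (∀ n : ℕ, #(Y n) ≤ ℵ_ ((n : Ordinal.{0}) + 1)) ∧
      U = ⋃ n, Y n := by
  classical
  let T := Σ n : ℕ, (ℵ_ (n : Ordinal.{0})).ord.ToType
  have hT : ℵ_ ω ≤ #T := by
    rw [Cardinal.mk_sigma]
    rw [isNormal_aleph.le_iff_forall_le isSuccLimit_omega0]
    intro c hc
    obtain ⟨n, rfl⟩ := Ordinal.lt_omega0.1 hc
    refine le_trans ?_ (Cardinal.le_sum _ n)
    rw [mk_ord_toType]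
  have hne : Nonempty T := by
    rw [← mk_ne_zero_iff]
    intro h0
    rw [h0] at hT
    exact absurd hT (not_le.2 (aleph_pos _))
  obtain ⟨g, hg⟩ := exists_injOn (γ := T) (h.trans hT)
  refine ⟨fun n => ⋃ m : {m : ℕ // m ≤ n}, {x ∈ U | (g x).1 = m}, ?_, fun n => ?_, ?_⟩
  · intro n n' hn x hx
    simp only [mem_iUnion] at hx ⊢
    obtain ⟨m, hm⟩ := hx
    exact ⟨⟨m, m.2.trans hn⟩, hm⟩
  · have hinf : ℵ₀ ≤ ℵ_ ((n : Ordinal.{0}) + 1) := aleph0_le_aleph _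
    refine (Cardinal.mk_iUnion_le _).trans ?_
    refine (mul_le_mul' ((Cardinal.mk_le_aleph0).trans hinf) (ciSup_le' (fun m => ?_))).trans
      (Cardinal.mul_eq_self hinf).le
    have h1 : #{x ∈ U | (g x).1 = (m : ℕ)} ≤ #(range
        (fun b : (ℵ_ ((m : ℕ) : Ordinal.{0})).ord.ToType => (⟨(m : ℕ), b⟩ : T))) := by
      rw [← mk_image_eq_of_injOn g _ (hg.mono (fun x hx => hx.1))]
      refine mk_le_mk_of_subset ?_
      rintro _ ⟨x, ⟨-, hx⟩, rfl⟩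
      rcases hgx : g x with ⟨a, b⟩
      rw [hgx] at hx
      simp only at hx
      subst hx
      exact ⟨b, rfl⟩
    refine h1.trans (mk_range_le.trans ?_)
    rw [mk_ord_toType, aleph_le_aleph]
    have := m.2
    calc ((m : ℕ) : Ordinal.{0}) ≤ (n : Ordinal.{0}) := by exact_mod_cast this
      _ ≤ _ := by simp
  · ext x
    simp only [mem_iUnion]
    constructor
    · intro hx; exact ⟨(g x).1, ⟨(g x).1, le_rfl⟩, hx, rfl⟩
    · rintro ⟨n, m, hx, -⟩; exact hx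

theorem small_omega (gch : GCH) (𝒜 : Set (Set α)) (hAD : AD 𝒜)
    (hA1 : ∀ A ∈ 𝒜, #A = ℵ_ 1) (hc : #𝒜 ≤ ℵ_ ω) : ED 𝒜 := by
  classical
  have hU : #(⋃₀ 𝒜) ≤ ℵ_ ω := by
    refine card_sUnion_le (aleph0_le_aleph _) hc (fun A hA => ?_)
    rw [hA1 A hA, aleph_le_aleph]
    exact one_lt_omega0.le
  obtain ⟨Y, hYm, hYc, hYU⟩ := exists_layers _ hU
  -- an increasing sequence of good sets
  have hexX : ∃ X : ℕ → Set α, (∀ n : ℕ, #(X n) ≤ ℵ_ ((n : Ordinal.{0}) + 1)) ∧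
      (∀ n, Y n ⊆ X n) ∧ ∀ n, ∀ A ∈ 𝒜, (A ∩ X n).Countable ∨ A ⊆ X n := by
    choose X hX1 hX2 hX3 using fun n : ℕ => exists_good gch hAD hA1 (n : Ordinal.{0}) (Y n) (hYc n)
    exact ⟨X, hX2, hX1, hX3⟩
  obtain ⟨X, hX1, hX2, hX3⟩ := hexX
  have hex : ∀ A ∈ 𝒜, ∃ n, A ⊆ X n := by
    intro A hA
    by_contra hcon
    push Not at hcon
    refine not_countable_of_mk (hA1 A hA) ?_
    have : A = ⋃ n, A ∩ X n := by
      rw [← inter_iUnion]
      refine (inter_eq_self_of_subset_left ?_).symm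
      refine (subset_sUnion_of_mem hA).trans ?_
      rw [hYU]
      exact iUnion_mono hX2
    rw [this]
    refine countable_iUnion (fun n => ?_)
    exact (hX3 n A hA).resolve_right (hcon n)
  let ρ : Set α → ℕ := fun A => if h : ∃ n, A ⊆ X n then Nat.find h else 0
  have hρ1 : ∀ A ∈ 𝒜, A ⊆ X (ρ A) := by
    intro A hA
    simp only [ρ, dif_pos (hex A hA)]
    exact Nat.find_spec (hex A hA)
  have hρ2 : ∀ A ∈ 𝒜, ∀ n < ρ A, ¬ A ⊆ X n := by
    intro A hA n hn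
    simp only [ρ, dif_pos (hex A hA)] at hn
    exact Nat.find_min (hex A hA) hn
  refine ED.glue X ρ hρ1 (fun A hA => ?_) (fun n => ?_)
  · rw [inter_iUnion₂]
    refine Countable.biUnion (Set.to_countable _) (fun n hn => ?_)
    exact (hX3 n A hA).resolve_right (hρ2 A hA n hn)
  · refine small_nat gch n _ (hAD.mono fun A hA => hA.1) (fun A hA => hA1 A hA.1) ?_
    refine (mk_le_mk_of_subset ?_).trans
      (card_infinite_le hAD (X n) (hX1 n) (gch.pow_aleph_succ n))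
    rintro A ⟨hA, hAn⟩
    refine ⟨hA, ?_⟩
    have := hρ1 A hA
    rw [hAn] at this
    rw [inter_eq_self_of_subset_left this]
    exact infinite_of_mk (hA1 A hA)

/-- members meeting a set of size `≤ ℵ_ω` in an uncountable set -/
theorem card_uncountable_le (gch : GCH) {𝒜 : Set (Set α)} (hAD : AD 𝒜) (X : Set α)
    (hX : #X ≤ ℵ_ ω) : #{A ∈ 𝒜 | ¬ (A ∩ X).Countable} ≤ ℵ_ ω := by
  obtain ⟨Y, -, hYc, rfl⟩ := exists_layers X hX
  have hsub : {A ∈ 𝒜 | ¬ (A ∩ ⋃ n, Y n).Countable} ⊆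
      ⋃ n, {A ∈ 𝒜 | (A ∩ Y n).Infinite} := by
    rintro A ⟨hA, hc⟩
    by_contra hcon
    simp only [mem_iUnion, not_exists] at hcon
    apply hc
    rw [inter_iUnion]
    refine countable_iUnion (fun n => ?_)
    by_contra hn
    exact hcon n ⟨hA, fun h => hn h.countable⟩
  refine (mk_le_mk_of_subset hsub).trans ((Cardinal.mk_iUnion_le _).trans ?_)
  have hinf : ℵ₀ ≤ ℵ_ ω := aleph0_le_aleph _
  refine (mul_le_mul' ((Cardinal.mk_le_aleph0).trans hinf) (ciSup_le' (fun n => ?_))).trans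
    (Cardinal.mul_eq_self hinf).le
  refine (card_infinite_le hAD (Y n) (hYc n) (gch.pow_aleph_succ n)).trans ?_
  rw [aleph_le_aleph]
  have : ((n : Ordinal.{0}) + 1) < ω := by exact_mod_cast natCast_lt_omega0 (n + 1)
  exact this.le

end Sad
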